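import Mathlib

/-!
# The alphabet and the capacity bounds
-/

namespace Pool.Agent.X194.SepSpan

open Finset

/-- tensor (Haemers type) bound -/
theorem tensor_bound {K ι α : Type} [Field K] [Fintype ι] [DecidableEq ι] {T : ℕ}
    (v : α → ι → K) (S : Finset (Fin T → α))
    (hd : ∀ x ∈ S, ∀ t, (∑ i, v (x t) i * v (x t) i) ≠ 0)
    (hs : ∀ x ∈ S, ∀ y ∈ S, x ≠ y → ∃ t, ∑ i, v (x t) i * v (y t) i = 0) :
    S.card ≤ (Nat.card ι) ^ T := by
  classical
  rw [Nat.card_eq_fintype_card]
  let Φ : S → (Fin T → ι) → K := fun x j => ∏ t, v (x.1 t) (j t)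
  have key : ∀ x y : S, ∑ j, Φ x j * Φ y j = ∏ t, ∑ i, v (x.1 t) i * v (y.1 t) i := by
    intro x y
    rw [Finset.prod_univ_sum]
    simp only [Fintype.piFinset_univ, Φ, ← Finset.prod_mul_distrib]
  have hli : LinearIndependent K Φ := by
    rw [linearIndependent_iff']
    intro s g hg y hy
    have h1 : ∑ j, (∑ x ∈ s, g x • Φ x) j * Φ y j = 0 := by
      rw [hg]; simp
    have h2 : ∑ j, (∑ x ∈ s, g x • Φ x) j * Φ y j = ∑ x ∈ s, g x * ∑ j, Φ x j * Φ y j := by
      simp only [Finset.sum_apply, Pi.smul_apply, smul_eq_mul, Finset.sum_mul, Finset.mul_sum]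
      rw [Finset.sum_comm]
      refine Finset.sum_congr rfl fun x _ => Finset.sum_congr rfl fun j _ => by ring
    rw [h2, Finset.sum_eq_single_of_mem y hy] at h1
    · rw [key] at h1
      rcases mul_eq_zero.1 h1 with h | h
      · exact h
      · exfalso
        rw [Finset.prod_eq_zero_iff] at h
        obtain ⟨t, -, ht⟩ := h
        exact hd y.1 y.2 t ht
    · intro x _ hxy
      obtain ⟨t, ht⟩ := hs x.1 x.2 y.1 y.2 (fun h => hxy (Subtype.ext h))
      rw [key, Finset.prod_eq_zero (Finset.mem_univ t) ht, mul_zero]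
  have h3 := hli.fintype_card_le_finrank
  rw [Module.finrank_fintype_fun_eq_card] at h3
  simpa using h3

theorem card_sub {n k : ℕ} (w : Finset (Fin n)) :
    (Finset.univ.filter (fun s : {s : Finset (Fin n) // s.card = k} => s.1 ⊆ w)).card
      = w.card.choose k := by
  rw [← Finset.card_powersetCard]
  apply Finset.card_bij (fun k _ => k.1)
  · intro k hk
    simp only [Finset.mem_filter, Finset.mem_univ, true_and] at hk
    exact Finset.mem_powersetCard.2 ⟨hk, k.2⟩
  · intro k _ l _ h
    exact Subtype.ext h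
  · intro w hw
    rw [Finset.mem_powersetCard] at hw
    exact ⟨⟨w, hw.2⟩, by simpa using hw.1, rfl⟩

theorem natCard_len (n k : ℕ) : Nat.card {s : Finset (Fin n) // s.card = k} = n.choose k := by
  rw [Nat.card_eq_fintype_card, Fintype.card_finset_len, Fintype.card_fin]

theorem natCard_opt (β : Type) [Finite β] : Nat.card (Option β) = Nat.card β + 1 := by
  haveI := Fintype.ofFinite β
  rw [Nat.card_eq_fintype_card, Nat.card_eq_fintype_card, Fintype.card_option]

theorem natCard_opt2 (β : Type) [Finite β] : Nat.card (Option (β ⊕ β)) = 1 + 2 * Nat.card β := by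
  rw [natCard_opt, Nat.card_sum]; ring

theorem card_le_of_inj {α β : Type} [Finite β] {T : ℕ} (S : Finset (Fin T → α)) (κ : α → β)
    (h : ∀ x ∈ S, ∀ y ∈ S, (∀ t, κ (x t) = κ (y t)) → x = y) : S.card ≤ (Nat.card β) ^ T := by
  classical
  haveI := Fintype.ofFinite β
  have := Finset.card_le_card_of_injOn (s := S) (t := (Finset.univ : Finset (Fin T → β)))
    (fun x t => κ (x t)) (fun _ _ => Finset.mem_univ _) (by
      intro x hx y hy hxy
      exact h x hx y hy (fun t => congrFun hxy t))
  rw [Finset.card_univ, Fintype.card_fun, Fintype.card_fin, ← Nat.card_eq_fintype_card] at this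
  exact this

theorem z3 (n : ℕ) (h1 : n ≤ 5) (h : n % 3 ≠ 2) : ((n.choose 2 : ℕ) : ZMod 3) = 0 := by
  interval_cases n
  · decide
  · decide
  · exact absurd rfl h
  · decide
  · decide
  · exact absurd rfl h

/-- five element subsets of a set with 100 elements -/
abbrev V : Type := {s : Finset (Fin 100) // s.card = 5}

lemma choose_100_5 : Nat.choose 100 5 = 75287520 := by simp [Nat.choose]

lemma choose_100_2 : Nat.choose 100 2 = 4950 := by simp [Nat.choose]

lemma card_V : Nat.card V = 75287520 := (natCard_len 100 5).trans choose_100_5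

/-- the alphabet -/
inductive A (R : ℕ) : Type
  | z : A R
  | a (v : V) : A R
  | b (v : V) : A R
  | c (i : Fin R) : A R

namespace A

variable {R : ℕ}

/-- coding of the alphabet -/
def code : A R → Option (V ⊕ V ⊕ Fin R)
  | z => none
  | a v => some (Sum.inl v)
  | b v => some (Sum.inr (Sum.inl v))
  | c i => some (Sum.inr (Sum.inr i))

lemma code_inj : Function.Injective (code (R := R)) := by
  intro x y h
  cases x <;> cases y <;> simp_all [code]

instance : Finite (A R) := Finite.of_injective _ code_inj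

/-- two letters are at distance 8 -/
def Sp : A R → A R → Prop
  | z, z => False
  | z, c _ => False
  | c _, z => False
  | a u, a v => (u.1 ∩ v.1).card % 2 = 0
  | b u, b v => (u.1 ∩ v.1).card % 3 ≠ 2
  | c i, c j => i ≠ j
  | z, a _ => True
  | z, b _ => True
  | a _, z => True
  | b _, z => True
  | a _, b _ => True
  | b _, a _ => True
  | a _, c _ => True
  | b _, c _ => True
  | c _, a _ => True
  | c _, b _ => True

lemma Sp_symm : ∀ {x y : A R}, Sp x y → Sp y x := by
  intro x y h
  cases x <;> cases y <;> simp_all [Sp, Finset.inter_comm, eq_comm]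

lemma Sp_irrefl : ∀ x : A R, ¬ Sp x x := by
  intro x h
  cases x with
  | z => exact h
  | a v => simp [Sp, v.2] at h
  | b v => simp [Sp, v.2] at h
  | c i => exact h rfl

open Classical in
/-- the distance on the alphabet -/
noncomputable def d (x y : A R) : ℝ := if x = y then 0 else if Sp x y then 8 else 4

lemma d_self (x : A R) : d x x = 0 := by simp [d]

lemma d_comm (x y : A R) : d x y = d y x := by
  unfold d
  have h1 : (x = y) = (y = x) := propext eq_comm
  have h2 : Sp x y = Sp y x := propext ⟨Sp_symm, Sp_symm⟩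
  rw [h1, h2]

lemma d_nonneg (x y : A R) : 0 ≤ d x y := by unfold d; split_ifs <;> norm_num

lemma d_le (x y : A R) : d x y ≤ 8 := by unfold d; split_ifs <;> norm_num

lemma d_ge {x y : A R} (h : x ≠ y) : 4 ≤ d x y := by
  unfold d; rw [if_neg h]; split_ifs <;> norm_num

lemma d_eq_zero {x y : A R} (h : d x y = 0) : x = y := by
  by_contra hne
  have := d_ge hne
  linarith

lemma d_sp {x y : A R} (h : Sp x y) : d x y = 8 := by
  unfold d
  rw [if_neg, if_pos h]
  rintro rfl
  exact Sp_irrefl _ h

lemma d_not_sp {x y : A R} (h : ¬ Sp x y) : d x y ≤ 4 := by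
  unfold d
  rw [if_neg h]
  split_ifs <;> norm_num

noncomputable instance : MetricSpace (A R) where
  dist := d
  dist_self := d_self
  dist_comm := d_comm
  dist_triangle x y w := by
    show d x w ≤ d x y + d y w
    by_cases h1 : x = y
    · subst h1; rw [d_self]; linarith
    by_cases h2 : y = w
    · subst h2; rw [d_self]; linarith
    have := d_ge h1
    have := d_ge h2
    have := d_le x w
    linarith
  eq_of_dist_eq_zero := d_eq_zero

lemma dist_def (x y : A R) : dist x y = d x y := rfl

/-- `z` and type `a` letters -/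
def za : A R → Prop
  | z => True
  | a _ => True
  | _ => False

/-- `z` and type `b` letters -/
def zb : A R → Prop
  | z => True
  | b _ => True
  | _ => False

/-- `z` and type `c` letters -/
def zc : A R → Prop
  | z => True
  | c _ => True
  | _ => False

/-- not type `c` -/
def nc : A R → Prop
  | c _ => False
  | _ => True

open Classical in
/-- vectors over `ZMod 2` -/
noncomputable def va : A R → Option (Fin 100) → ZMod 2
  | z, i => if i = none then 1 else 0
  | a v, i => match i with
    | none => 0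
    | some k => if k ∈ v.1 then 1 else 0
  | b _, _ => 1
  | c _, _ => 1

/-- pairs -/
abbrev Pr : Type := {s : Finset (Fin 100) // s.card = 2}

open Classical in
/-- vectors over `ZMod 3` -/
noncomputable def vb : A R → Option Pr → ZMod 3
  | z, i => if i = none then 1 else 0
  | b v, i => match i with
    | none => 0
    | some k => if k.1 ⊆ v.1 then 1 else 0
  | a _, _ => 1
  | c _, _ => 1

lemma va_zz : ∑ i, va (z : A R) i * va (z : A R) i = 1 := by
  simp [va]

lemma va_za (v : V) : ∑ i, va (z : A R) i * va (a v : A R) i = 0 := by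
  simp [va]

lemma va_az (v : V) : ∑ i, va (a v : A R) i * va (z : A R) i = 0 := by
  simp [va]

lemma va_aa (u v : V) : ∑ i, va (a u : A R) i * va (a v : A R) i
    = (((u.1 ∩ v.1).card : ℕ) : ZMod 2) := by
  classical
  simp only [va, Fintype.sum_option, mul_zero, zero_add]
  have h : ∀ k : Fin 100, (if k ∈ u.1 then (1 : ZMod 2) else 0) * (if k ∈ v.1 then 1 else 0)
      = if k ∈ u.1 ∩ v.1 then 1 else 0 := by
    intro k
    by_cases h1 : k ∈ u.1 <;> by_cases h2 : k ∈ v.1 <;> simp [h1, h2]
  rw [Finset.sum_congr rfl fun k _ => h k, Finset.sum_boole]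
  congr 2
  ext k
  simp

lemma vb_zz : ∑ i, vb (z : A R) i * vb (z : A R) i = 1 := by
  simp [vb]

lemma vb_zb (v : V) : ∑ i, vb (z : A R) i * vb (b v : A R) i = 0 := by
  simp [vb]

lemma vb_bz (v : V) : ∑ i, vb (b v : A R) i * vb (z : A R) i = 0 := by
  simp [vb]

lemma vb_bb (u v : V) : ∑ i, vb (b u : A R) i * vb (b v : A R) i
    = (((u.1 ∩ v.1).card.choose 2 : ℕ) : ZMod 3) := by
  classical
  simp only [vb, Fintype.sum_option, mul_zero, zero_add]
  have h : ∀ k : Pr, (if k.1 ⊆ u.1 then (1 : ZMod 3) else 0) * (if k.1 ⊆ v.1 then 1 else 0)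
      = if k.1 ⊆ u.1 ∩ v.1 then 1 else 0 := by
    intro k
    by_cases h1 : k.1 ⊆ u.1 <;> by_cases h2 : k.1 ⊆ v.1 <;> simp [h1, h2, Finset.subset_inter_iff]
  rw [Finset.sum_congr rfl fun k _ => h k, Finset.sum_boole, card_sub]

lemma va_diag {x : A R} (hx : za x) : ∑ i, va x i * va x i ≠ 0 := by
  cases x with
  | z => rw [va_zz]; decide
  | a v =>
    rw [va_aa, Finset.inter_self, v.2]
    decide
  | b v => exact hx.elim
  | c i => exact hx.elim

lemma va_sep {x y : A R} (hx : za x) (hy : za y) (h : Sp x y) : ∑ i, va x i * va y i = 0 := by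
  cases x with
  | z =>
    cases y with
    | z => exact h.elim
    | a v => exact va_za v
    | b v => exact hy.elim
    | c i => exact hy.elim
  | a u =>
    cases y with
    | z => exact va_az u
    | a v =>
      rw [va_aa, ZMod.natCast_eq_zero_iff]
      exact Nat.dvd_of_mod_eq_zero h
    | b v => exact hy.elim
    | c i => exact hy.elim
  | b v => exact hx.elim
  | c i => exact hx.elim

lemma card_inter_le (u v : V) : (u.1 ∩ v.1).card ≤ 5 := by
  calc (u.1 ∩ v.1).card ≤ u.1.card := Finset.card_le_card Finset.inter_subset_left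
    _ = 5 := u.2

lemma vb_diag {x : A R} (hx : zb x) : ∑ i, vb x i * vb x i ≠ 0 := by
  cases x with
  | z => rw [vb_zz]; decide
  | b v =>
    rw [vb_bb, Finset.inter_self, v.2]
    decide
  | a v => exact hx.elim
  | c i => exact hx.elim

lemma vb_sep {x y : A R} (hx : zb x) (hy : zb y) (h : Sp x y) : ∑ i, vb x i * vb y i = 0 := by
  cases x with
  | z =>
    cases y with
    | z => exact h.elim
    | b v => exact vb_zb v
    | a v => exact hy.elim
    | c i => exact hy.elim
  | b u =>
    cases y with
    | z => exact vb_bz u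
    | b v =>
      rw [vb_bb]
      exact z3 _ (card_inter_le u v) h
    | a v => exact hy.elim
    | c i => exact hy.elim
  | a v => exact hx.elim
  | c i => exact hx.elim

/-- pairwise separated words over `{z} ∪ a` -/
lemma bound_a {T : ℕ} (S : Finset (Fin T → A R)) (h1 : ∀ x ∈ S, ∀ t, za (x t))
    (h2 : ∀ x ∈ S, ∀ y ∈ S, x ≠ y → ∃ t, Sp (x t) (y t)) : S.card ≤ 4951 ^ T := by
  classical
  have h := tensor_bound (K := ZMod 2) va S (fun x hx t => va_diag (h1 x hx t)) (by
    intro x hx y hy hne
    obtain ⟨t, ht⟩ := h2 x hx y hy hne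
    exact ⟨t, va_sep (h1 x hx t) (h1 y hy t) ht⟩)
  refine h.trans (Nat.pow_le_pow_left ?_ T)
  rw [natCard_opt, Nat.card_eq_fintype_card, Fintype.card_fin]
  norm_num

/-- pairwise separated words over `{z} ∪ b` -/
lemma bound_b {T : ℕ} (S : Finset (Fin T → A R)) (h1 : ∀ x ∈ S, ∀ t, zb (x t))
    (h2 : ∀ x ∈ S, ∀ y ∈ S, x ≠ y → ∃ t, Sp (x t) (y t)) : S.card ≤ 4951 ^ T := by
  classical
  have h := tensor_bound (K := ZMod 3) vb S (fun x hx t => vb_diag (h1 x hx t)) (by
    intro x hx y hy hne
    obtain ⟨t, ht⟩ := h2 x hx y hy hne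
    exact ⟨t, vb_sep (h1 x hx t) (h1 y hy t) ht⟩)
  refine h.trans (Nat.pow_le_pow_left ?_ T)
  have h3 : Nat.card Pr = 4950 := (natCard_len 100 2).trans choose_100_2
  rw [natCard_opt, h3]

/-- separation in both modes distinguishes letters -/
lemma eq_of_not_sp {u v : V} (h1 : ¬ Sp (a u : A R) (a v)) (h2 : ¬ Sp (b u : A R) (b v)) :
    u = v := by
  change ¬ (u.1 ∩ v.1).card % 2 = 0 at h1
  change ¬ (u.1 ∩ v.1).card % 3 ≠ 2 at h2
  have h3 := card_inter_le u v
  have h4 : (u.1 ∩ v.1).card = 5 := by omega
  have h5 : u.1 ∩ v.1 = u.1 := Finset.eq_of_subset_of_card_le Finset.inter_subset_left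
    (by rw [h4, u.2])
  have h6 : u.1 ∩ v.1 = v.1 := Finset.eq_of_subset_of_card_le Finset.inter_subset_right
    (by rw [h4, v.2])
  exact Subtype.ext (h5.symm.trans h6)

/-- separated words over `{z} ∪ c` -/
lemma bound_c [NeZero R] {T : ℕ} (S : Finset (Fin T → A R)) (h1 : ∀ x ∈ S, ∀ t, zc (x t))
    (h2 : ∀ x ∈ S, ∀ y ∈ S, x ≠ y → ∃ t, Sp (x t) (y t)) : S.card ≤ R ^ T := by
  classical
  let κ : A R → Fin R := fun x => match x with
    | c i => i
    | _ => 0
  have hκ : ∀ x y : A R, zc x → zc y → Sp x y → κ x ≠ κ y := by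
    intro x y hx hy h
    cases x with
    | z => cases y with
      | z => exact h.elim
      | c j => exact h.elim
      | a v => exact hy.elim
      | b v => exact hy.elim
    | c i => cases y with
      | z => exact h.elim
      | c j => exact h
      | a v => exact hy.elim
      | b v => exact hy.elim
    | a v => exact hx.elim
    | b v => exact hx.elim
  have := card_le_of_inj S κ (by
    intro x hx y hy hxy
    by_contra hne
    obtain ⟨t, ht⟩ := h2 x hx y hy hne
    exact hκ _ _ (h1 x hx t) (h1 y hy t) ht (hxy t))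
  rwa [Nat.card_eq_fintype_card, Fintype.card_fin] at this

/-- number of words without `c` -/
lemma bound_nc {T : ℕ} (S : Finset (Fin T → A R)) (h1 : ∀ x ∈ S, ∀ t, nc (x t)) :
    S.card ≤ (1 + 2 * Nat.card V) ^ T := by
  classical
  let κ : A R → Option (V ⊕ V) := fun x => match x with
    | z => none
    | a v => some (Sum.inl v)
    | b v => some (Sum.inr v)
    | c _ => none
  have hκ : ∀ x y : A R, nc x → nc y → κ x = κ y → x = y := by
    intro x y hx hy h
    cases x <;> cases y <;> simp_all [κ, nc]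
  have := card_le_of_inj S κ (by
    intro x hx y hy hxy
    funext t
    exact hκ _ _ (h1 x hx t) (h1 y hy t) (hxy t))
  rwa [natCard_opt2] at this

end A

end Pool.Agent.X194.SepSpan
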