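import Mathlib

/-!
# Blocks and the recurrent sequence
-/

namespace Pool.Agent.X194.SepSpan

/-- finitely supported functions on `ℤ` with support in `[0, len)` -/
structure Blk (α : Type) (z : α) where
  len : ℕ
  f : ℤ → α
  neg : ∀ i, i < 0 → f i = z
  pos : ∀ i, (len : ℤ) ≤ i → f i = z

namespace Blk

variable {α : Type} {z : α}

/-- concatenation with gap `G` -/
def merge (G : ℕ) (P Q : Blk α z) : Blk α z where
  len := P.len + G + Q.len
  f i := if i < P.len + G then P.f i else Q.f (i - (P.len + G))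
  neg i hi := by
    have : i < (P.len : ℤ) + G := by have := Int.natCast_nonneg P.len; have := Int.natCast_nonneg G; linarith
    rw [if_pos this]; exact P.neg i hi
  pos i hi := by
    push_cast at hi
    rw [if_neg (by linarith [Int.natCast_nonneg Q.len])]
    exact Q.pos _ (by linarith)

lemma merge_left {G : ℕ} {P Q : Blk α z} {i : ℤ} (h : i < P.len + G) :
    (merge G P Q).f i = P.f i := by
  show (if i < P.len + G then P.f i else Q.f (i - (P.len + G))) = P.f i
  rw [if_pos h]

lemma merge_right {G : ℕ} {P Q : Blk α z} {i : ℤ} (h : -(G : ℤ) ≤ i) :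
    (merge G P Q).f (i + (P.len + G)) = Q.f i := by
  show (if i + (P.len + G) < P.len + G then P.f (i + (P.len + G))
    else Q.f (i + (P.len + G) - (P.len + G))) = Q.f i
  split_ifs with h1
  · rw [P.pos _ (by linarith), Q.neg _ (by linarith)]
  · congr 1; ring

/-- concatenation of a list -/
def mergeL (G : ℕ) (P : Blk α z) (L : List (Blk α z)) : Blk α z := L.foldl (merge G) P

/-- total length -/
def totLen (L : List (Blk α z)) : ℕ := (L.map Blk.len).sum

lemma mergeL_nil (G : ℕ) (P : Blk α z) : mergeL G P [] = P := rfl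

lemma mergeL_cons (G : ℕ) (P Q : Blk α z) (L : List (Blk α z)) :
    mergeL G P (Q :: L) = mergeL G (merge G P Q) L := rfl

lemma merge_len (G : ℕ) (P Q : Blk α z) : (merge G P Q).len = P.len + G + Q.len := rfl

lemma mergeL_len (G : ℕ) (L : List (Blk α z)) : ∀ P : Blk α z,
    (mergeL G P L).len = P.len + totLen L + L.length * G := by
  induction L with
  | nil => intro P; simp [mergeL, totLen]
  | cons Q L ih =>
    intro P
    rw [mergeL_cons, ih, merge_len]
    simp only [totLen, List.map_cons, List.sum_cons, List.length_cons]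
    ring

lemma mergeL_left (G : ℕ) (L : List (Blk α z)) : ∀ (P : Blk α z) (i : ℤ),
    i < P.len + G → (mergeL G P L).f i = P.f i := by
  induction L with
  | nil => intro P i _; rfl
  | cons Q L ih =>
    intro P i hi
    rw [mergeL_cons, ih, merge_left hi]
    rw [merge_len]
    push_cast
    have := Int.natCast_nonneg Q.len
    have := Int.natCast_nonneg G
    linarith

lemma mergeL_mem (G : ℕ) (L : List (Blk α z)) : ∀ (P : Blk α z), ∀ Q ∈ L,
    ∃ s : ℕ, s + Q.len ≤ (mergeL G P L).len ∧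
      ∀ i : ℤ, 0 ≤ i → i < Q.len → (mergeL G P L).f (i + s) = Q.f i := by
  induction L with
  | nil => intro P Q h; simp at h
  | cons Q' L ih =>
    intro P Q h
    rcases List.mem_cons.1 h with rfl | h
    · refine ⟨P.len + G, ?_, fun i h0 h1 => ?_⟩
      · rw [mergeL_cons, mergeL_len, merge_len]; omega
      rw [mergeL_cons, mergeL_left]
      · push_cast
        exact merge_right (by have := Int.natCast_nonneg G; linarith)
      · rw [merge_len]
        push_cast
        have := Int.natCast_nonneg G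
        linarith
    · rw [mergeL_cons]
      exact ih _ Q h

/-- `T`-windows of `h` occur in `P` -/
def WinIn (T : ℕ) (h : ℤ → α) (i : ℤ) (g : ℤ → α) : Prop :=
  ∃ j : ℤ, ∀ t : ℕ, t < T → h (i + t) = g (j + t)

lemma merge_win {G T : ℕ} (hT : T ≤ G) (P Q : Blk α z) (i : ℤ) :
    WinIn T (merge G P Q).f i P.f ∨ WinIn T (merge G P Q).f i Q.f := by
  have hT' : (T : ℤ) ≤ G := by exact_mod_cast hT
  rcases le_or_gt (i + T) (P.len + G) with h | h
  · left
    refine ⟨i, fun t ht => merge_left ?_⟩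
    have : (t : ℤ) < T := by exact_mod_cast ht
    linarith
  · right
    refine ⟨i - (P.len + G), fun t ht => ?_⟩
    have h0 : (0 : ℤ) ≤ t := Int.natCast_nonneg t
    have h1 := Int.natCast_nonneg P.len
    have e : i + t = (i - (P.len + G) + t) + (P.len + G) := by ring
    rw [e]
    exact merge_right (by linarith)

lemma mergeL_win {G T : ℕ} (hT : T ≤ G) (L : List (Blk α z)) : ∀ (P : Blk α z) (i : ℤ),
    WinIn T (mergeL G P L).f i P.f ∨ ∃ Q ∈ L, WinIn T (mergeL G P L).f i Q.f := by
  induction L with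
  | nil => intro P i; exact Or.inl ⟨i, fun t _ => rfl⟩
  | cons Q L ih =>
    intro P i
    rw [mergeL_cons]
    rcases ih (merge G P Q) i with ⟨j, hj⟩ | ⟨Q', hQ', h⟩
    · rcases merge_win hT P Q j with ⟨l, hl⟩ | ⟨l, hl⟩
      · exact Or.inl ⟨l, fun t ht => (hj t ht).trans (hl t ht)⟩
      · exact Or.inr ⟨Q, by simp, l, fun t ht => (hj t ht).trans (hl t ht)⟩
    · exact Or.inr ⟨Q', by simp [hQ'], h⟩

/-- a property of functions on `ℤ` passes through merging -/
lemma mergeL_ind {G : ℕ} (Pr : Blk α z → Prop)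
    (hm : ∀ P Q, Pr P → Pr Q → Pr (merge G P Q)) (L : List (Blk α z)) : ∀ (P : Blk α z),
    Pr P → (∀ Q ∈ L, Pr Q) → Pr (mergeL G P L) := by
  induction L with
  | nil => intro P hP _; exact hP
  | cons Q L ih =>
    intro P hP hL
    rw [mergeL_cons]
    exact ih _ (hm P Q hP (hL Q (by simp))) (fun Q' h => hL Q' (by simp [h]))

/-! ### the sequence -/

variable (W : ℕ → List (Blk α z))

/-- gap at a stage -/
def gap (P : Blk α z) : ℕ :=
  2 * P.len + totLen (W (P.len + 1)) + (W (P.len + 1)).length + 1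

/-- next stage -/
def next (P : Blk α z) : Blk α z :=
  merge (gap W P) (mergeL (gap W P) P (W (P.len + 1))) P

/-- the stages -/
def bl : ℕ → Blk α z
  | 0 => ⟨0, fun _ => z, fun _ _ => rfl, fun _ _ => rfl⟩
  | k + 1 => next W (bl k)

/-- the gaps -/
def gp (k : ℕ) : ℕ := gap W (bl W k)

/-- the sizes of words -/
def mm (k : ℕ) : ℕ := (bl W k).len + 1

lemma bl_succ (k : ℕ) : bl W (k + 1) =
    merge (gp W k) (mergeL (gp W k) (bl W k) (W (mm W k))) (bl W k) := rfl

lemma gp_eq (k : ℕ) : gp W k = 2 * (bl W k).len + totLen (W (mm W k)) + (W (mm W k)).length + 1 :=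
  rfl

lemma len_succ (k : ℕ) : (bl W (k + 1)).len =
    2 * (bl W k).len + totLen (W (mm W k)) + ((W (mm W k)).length + 1) * gp W k := by
  rw [bl_succ, merge_len, mergeL_len]
  ring

lemma mm_le_gp (k : ℕ) : mm W k ≤ gp W k := by
  rw [gp_eq, mm]; omega

lemma gp_le_len (k : ℕ) : gp W k ≤ (bl W (k + 1)).len := by
  rw [len_succ]
  nlinarith [Nat.zero_le (totLen (W (mm W k))), Nat.zero_le ((W (mm W k)).length * gp W k)]

lemma len_le_gp (k : ℕ) : (bl W (k + 1)).len ≤ 2 * gp W k * gp W k := by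
  rw [len_succ]
  have h := gp_eq W k
  have h1 : 2 * (bl W k).len + totLen (W (mm W k)) ≤ gp W k := by omega
  have h2 : (W (mm W k)).length + 1 ≤ gp W k := by omega
  have h3 : 1 ≤ gp W k := by omega
  nlinarith

lemma mm_lt (k : ℕ) : mm W k < mm W (k + 1) := by
  have h1 := mm_le_gp W k
  have h2 := gp_le_len W k
  rw [mm, mm] at *
  omega

lemma mm_strictMono : StrictMono (mm W) := strictMono_nat_of_lt_succ (mm_lt W)

lemma gp_lt (k : ℕ) : gp W k < gp W (k + 1) := by
  have h1 := gp_le_len W k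
  have h2 := mm_le_gp W (k + 1)
  rw [mm] at h2
  omega

lemma gp_strictMono : StrictMono (gp W) := strictMono_nat_of_lt_succ (gp_lt W)

lemma len_mono : Monotone fun k => (bl W k).len := by
  apply monotone_nat_of_le_succ
  intro k
  have h1 := gp_le_len W k
  have h2 := mm_le_gp W k
  rw [mm] at h2
  omega

lemma le_len (k : ℕ) : k ≤ (bl W k).len := by
  have h : ∀ k, k + 1 ≤ mm W k := by
    intro k
    induction k with
    | zero => simp [mm]
    | succ k ih => have := mm_lt W k; omega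
  have := h k
  rw [mm] at this
  omega

lemma bl_left {k : ℕ} {i : ℤ} (h : i < (bl W k).len + gp W k) :
    (bl W (k + 1)).f i = (bl W k).f i := by
  rw [bl_succ, merge_left, mergeL_left _ _ _ _ h]
  rw [mergeL_len]
  push_cast
  have h1 : (0 : ℤ) ≤ (totLen (W (mm W k)) : ℤ) := Int.natCast_nonneg _
  have h2 : (0 : ℤ) ≤ ((W (mm W k)).length : ℤ) * gp W k := by positivity
  linarith

lemma bl_left' {k l : ℕ} (hkl : k ≤ l) {i : ℤ} (h : i < (bl W k).len + gp W k) :
    (bl W l).f i = (bl W k).f i := by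
  induction l, hkl using Nat.le_induction with
  | base => rfl
  | succ l hkl ih =>
    rw [bl_left, ih]
    have h1 : ((bl W k).len : ℤ) ≤ (bl W l).len := by exact_mod_cast len_mono W hkl
    have h2 : (gp W k : ℤ) ≤ gp W l := by exact_mod_cast (gp_strictMono W).monotone hkl
    linarith

/-- the second copy of `bl k` inside `bl (k+1)` -/
lemma bl_right (k : ℕ) {i : ℤ} (h : -(gp W k : ℤ) ≤ i) :
    (bl W (k + 1)).f (i + ((bl W (k + 1)).len - (bl W k).len : ℤ)) = (bl W k).f i := by
  have e : ((bl W (k + 1)).len - (bl W k).len : ℤ)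
      = ((mergeL (gp W k) (bl W k) (W (mm W k))).len : ℤ) + gp W k := by
    have : (bl W (k + 1)).len = (mergeL (gp W k) (bl W k) (W (mm W k))).len + gp W k
      + (bl W k).len := by rw [bl_succ, merge_len]
    rw [this]; push_cast; ring
  rw [e, bl_succ]
  exact merge_right h

/-- the infinite sequence -/
def yy (i : ℤ) : α := (bl W (i.toNat + 1)).f i

lemma yy_eq {k : ℕ} {i : ℤ} (h : i < (bl W k).len + gp W k) : yy W i = (bl W k).f i := by
  have h0 : i < (bl W (i.toNat + 1)).len + gp W (i.toNat + 1) := by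
    have h1 := le_len W (i.toNat + 1)
    have h2 : i ≤ i.toNat := Int.self_le_toNat i
    have h3 : ((i.toNat + 1 : ℕ) : ℤ) ≤ (bl W (i.toNat + 1)).len := by exact_mod_cast h1
    have h4 : (0 : ℤ) ≤ gp W (i.toNat + 1) := Int.natCast_nonneg _
    push_cast at h3
    linarith
  rcases le_total k (i.toNat + 1) with hk | hk
  · exact bl_left' W hk h
  · exact (bl_left' W hk h0).symm

/-- recurrence -/
lemma yy_rec (n N : ℕ) : ∃ s : ℕ, N ≤ s ∧ ∀ j : ℤ, -(n : ℤ) ≤ j → j ≤ n → yy W (s + j) = yy W j := by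
  set k := n + N with hk
  have h1 := le_len W (k + 1)
  have h2 := mm_le_gp W k
  have h3 := le_len W k
  have h4 := gp_le_len W k
  have h5 : k + 1 ≤ gp W k := by rw [mm] at h2; omega
  have h6 : (bl W k).len + gp W k ≤ (bl W (k + 1)).len := by
    rw [len_succ]
    nlinarith [Nat.zero_le (totLen (W (mm W k))), Nat.zero_le ((W (mm W k)).length * gp W k)]
  refine ⟨(bl W (k + 1)).len - (bl W k).len, by omega, fun j hj1 hj2 => ?_⟩
  have h7 : (((bl W (k + 1)).len - (bl W k).len : ℕ) : ℤ)
      = (bl W (k + 1)).len - (bl W k).len := by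
    rw [Nat.cast_sub (by omega)]
  have h8 : ((k : ℤ) + 1) ≤ gp W k := by exact_mod_cast h5
  have h9 : (n : ℤ) ≤ k := by exact_mod_cast (by omega : n ≤ k)
  have h10 : (k : ℤ) ≤ (bl W k).len := by exact_mod_cast h3
  have h11 : (gp W k : ℤ) ≤ gp W (k + 1) := by exact_mod_cast (gp_strictMono W).monotone (by omega)
  rw [yy_eq W (k := k + 1) (by rw [h7]; linarith), yy_eq W (k := k) (i := j) (by linarith), h7]
  have := bl_right W k (i := j) (by linarith)
  rw [← this]
  congr 1
  ring

/-- windows of the sequence -/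
lemma yy_win {k T : ℕ} (hT : T ≤ gp W k) (i : ℤ) :
    WinIn T (yy W) i (bl W k).f ∨ ∃ l, k ≤ l ∧ ∃ Q ∈ W (mm W l), WinIn T (yy W) i Q.f := by
  have key : ∀ K, k ≤ K → ∀ i : ℤ, WinIn T (bl W K).f i (bl W k).f ∨
      ∃ l, k ≤ l ∧ ∃ Q ∈ W (mm W l), WinIn T (bl W K).f i Q.f := by
    intro K hK
    induction K, hK using Nat.le_induction with
    | base => intro i; exact Or.inl ⟨i, fun _ _ => rfl⟩
    | succ K hK ih =>
      intro i
      have hT' : T ≤ gp W K := hT.trans ((gp_strictMono W).monotone hK)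
      have aux : ∀ i, WinIn T (bl W (K + 1)).f i (bl W K).f ∨
          ∃ Q ∈ W (mm W K), WinIn T (bl W (K + 1)).f i Q.f := by
        intro i
        rw [bl_succ]
        rcases merge_win hT' (mergeL (gp W K) (bl W K) (W (mm W K))) (bl W K) i with ⟨j, hj⟩ | h
        · rcases mergeL_win hT' (W (mm W K)) (bl W K) j with ⟨l, hl⟩ | ⟨Q, hQ, l, hl⟩
          · exact Or.inl ⟨l, fun t ht => (hj t ht).trans (hl t ht)⟩
          · exact Or.inr ⟨Q, hQ, l, fun t ht => (hj t ht).trans (hl t ht)⟩
        · exact Or.inl h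
      rcases aux i with ⟨j, hj⟩ | ⟨Q, hQ, h⟩
      · rcases ih j with ⟨l, hl⟩ | ⟨l', hl', Q, hQ, l, hl⟩
        · exact Or.inl ⟨l, fun t ht => (hj t ht).trans (hl t ht)⟩
        · exact Or.inr ⟨l', hl', Q, hQ, l, fun t ht => (hj t ht).trans (hl t ht)⟩
      · exact Or.inr ⟨K, hK, Q, hQ, h⟩
  set K := k + (i + T).toNat with hKdef
  have h1 := le_len W K
  have h2 : i + T ≤ (i + T).toNat := Int.self_le_toNat _
  have h3 : ((i + T).toNat : ℤ) ≤ K := by exact_mod_cast (by omega : (i + T).toNat ≤ K)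
  have h4 : (K : ℤ) ≤ (bl W K).len := by exact_mod_cast h1
  have hy : ∀ t : ℕ, t < T → yy W (i + t) = (bl W K).f (i + t) := by
    intro t ht
    apply yy_eq
    have : (t : ℤ) < T := by exact_mod_cast ht
    have : (0 : ℤ) ≤ gp W K := Int.natCast_nonneg _
    linarith
  rcases key K (by omega) i with ⟨j, hj⟩ | ⟨l, hl, Q, hQ, j, hj⟩
  · exact Or.inl ⟨j, fun t ht => (hy t ht).trans (hj t ht)⟩
  · exact Or.inr ⟨l, hl, Q, hQ, j, fun t ht => (hy t ht).trans (hj t ht)⟩

/-- words occur in the sequence -/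
lemma yy_mem {k : ℕ} {Q : Blk α z} (hQ : Q ∈ W (mm W k)) :
    ∃ s : ℕ, ∀ i : ℤ, 0 ≤ i → i < Q.len → yy W (i + s) = Q.f i := by
  obtain ⟨s, hsM, hs⟩ := mergeL_mem (gp W k) (W (mm W k)) (bl W k) Q hQ
  set M := mergeL (gp W k) (bl W k) (W (mm W k)) with hM
  refine ⟨s, fun i h0 h1 => ?_⟩
  have hlt : i + s < M.len + gp W k := by
    have : ((s + Q.len : ℕ) : ℤ) ≤ (M.len : ℤ) := by exact_mod_cast hsM
    push_cast at this
    have := Int.natCast_nonneg (gp W k)
    linarith
  have h2 : (bl W (k + 1)).len = M.len + gp W k + (bl W k).len := by rw [bl_succ, merge_len]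
  rw [yy_eq W (k := k + 1)]
  · rw [bl_succ, merge_left hlt]
    exact hs i h0 h1
  · rw [h2]
    push_cast
    have := Int.natCast_nonneg (bl W k).len
    have := Int.natCast_nonneg (gp W (k + 1))
    linarith

/-- long zero runs -/
lemma yy_zero (k : ℕ) {i : ℤ} (h1 : ((bl W k).len : ℤ) ≤ i) (h2 : i < (bl W k).len + gp W k) :
    yy W i = z := by
  rw [yy_eq W h2]
  exact (bl W k).pos i h1

/-- a property that passes through merging holds for all stages -/
lemma bl_ind (Pr : Blk α z → Prop) (h0 : Pr (bl W 0))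
    (hm : ∀ G P Q, 1 ≤ G → Pr P → Pr Q → Pr (merge G P Q))
    (hW : ∀ k, ∀ Q ∈ W (mm W k), Pr Q) : ∀ k, Pr (bl W k) := by
  intro k
  induction k with
  | zero => exact h0
  | succ k ih =>
    have hG : 1 ≤ gp W k := by rw [gp_eq]; omega
    rw [bl_succ]
    exact hm _ _ _ hG (mergeL_ind Pr (fun P Q hP hQ => hm _ P Q hG hP hQ) _ _ ih (hW k)) ih

end Blk

end Pool.Agent.X194.SepSpan
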