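import Pool.Agent.X194.SepSpan.System

/-!
# Counting
-/

namespace Pool.Agent.X194.SepSpan

open Blk Finset

variable {R : ℕ}

/-- pairwise separated at the large scale -/
def SepW (T : ℕ) (S : Finset (XS R)) : Prop :=
  ∀ x ∈ S, ∀ x' ∈ S, x ≠ x' → ∃ t : Fin T, A.Sp (x.1 t) (x'.1 t)

lemma SepW.mono {T : ℕ} {S S' : Finset (XS R)} (h : SepW T S) (hs : S' ⊆ S) : SepW T S' :=
  fun x hx x' hx' hne => h x (hs hx) x' (hs hx') hne

/-- length of the stage -/
noncomputable def ln (R k : ℕ) : ℕ := (bl (Wd R) k).len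

lemma ln_eq (k : ℕ) : ln R k + 1 = m R k := rfl

lemma card_class1 {T L : ℕ} {g : ℤ → A R} {S : Finset (XS R)} (hS : SepW T S)
    (h : ∀ x ∈ S, ∃ j ∈ Finset.Icc (-(T : ℤ)) L, ∀ t : Fin T, x.1 t = g (j + t)) :
    S.card ≤ L + T + 1 := by
  classical
  have h' : ∀ x : S, ∃ j ∈ Finset.Icc (-(T : ℤ)) L, ∀ t : Fin T, x.1.1 t = g (j + t) :=
    fun x => h x.1 x.2
  choose j hj1 hj2 using h'
  have hinj : Function.Injective j := by
    intro x x' hxx
    by_contra hne
    obtain ⟨t, ht⟩ := hS x.1 x.2 x'.1 x'.2 (fun e => hne (Subtype.ext e))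
    rw [hj2 x t, hj2 x' t, hxx] at ht
    exact A.Sp_irrefl _ ht
  have h1 : (Finset.univ.image j).card = S.card := by
    rw [Finset.card_image_of_injective _ hinj]
    simp
  have h2 : Finset.univ.image j ⊆ Finset.Icc (-(T : ℤ)) L := by
    intro i hi
    obtain ⟨x, -, rfl⟩ := Finset.mem_image.1 hi
    exact hj1 x
  have h3 := Finset.card_le_card h2
  rw [h1, Int.card_Icc] at h3
  omega

lemma card_class2 {T N : ℕ} {P : A R → Prop}
    (hb : ∀ S' : Finset (Fin T → A R), (∀ x ∈ S', ∀ t, P (x t)) →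
      (∀ x ∈ S', ∀ x' ∈ S', x ≠ x' → ∃ t, A.Sp (x t) (x' t)) → S'.card ≤ N)
    {S : Finset (XS R)} (hS : SepW T S) (h : ∀ x ∈ S, ∀ t : Fin T, P (x.1 t)) :
    S.card ≤ N := by
  classical
  have hinj : Set.InjOn (fun (x : XS R) (t : Fin T) => x.1 t) S := by
    intro x hx x' hx' hxx
    by_contra hne
    obtain ⟨t, ht⟩ := hS x hx x' hx' hne
    have e : x.1 t = x'.1 t := congrFun hxx t
    rw [e] at ht
    exact A.Sp_irrefl _ ht
  rw [← Finset.card_image_of_injOn hinj]
  apply hb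
  · intro w hw t
    obtain ⟨x, hx, rfl⟩ := Finset.mem_image.1 hw
    exact h x hx t
  · intro w hw w' hw' hne
    obtain ⟨x, hx, rfl⟩ := Finset.mem_image.1 hw
    obtain ⟨x', hx', rfl⟩ := Finset.mem_image.1 hw'
    exact hS x hx x' hx' (fun e => hne (by rw [e]))

lemma wd_za {m : ℕ} (v : Fin (16 * m) → V) {i : ℤ} (h : i < 17 * m) :
    A.za ((wd (R := R) m v).f i) := by
  change A.za (if h : 0 ≤ i ∧ i < 16 * m then A.a (v ⟨i.toNat, by omega⟩)
    else if h : 17 * m ≤ i ∧ i < 33 * m then A.b (v ⟨(i - 17 * m).toNat, by omega⟩) else A.z)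
  split_ifs with h1 h2
  · trivial
  · omega
  · trivial

lemma wd_zb {m : ℕ} (v : Fin (16 * m) → V) {i : ℤ} (h : 16 * m ≤ i) :
    A.zb ((wd (R := R) m v).f i) := by
  change A.zb (if h : 0 ≤ i ∧ i < 16 * m then A.a (v ⟨i.toNat, by omega⟩)
    else if h : 17 * m ≤ i ∧ i < 33 * m then A.b (v ⟨(i - 17 * m).toNat, by omega⟩) else A.z)
  split_ifs with h1 h2
  · omega
  · trivial
  · trivial

lemma wd_nc {m : ℕ} (v : Fin (16 * m) → V) (i : ℤ) :
    A.nc ((wd (R := R) m v).f i) := by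
  change A.nc (if h : 0 ≤ i ∧ i < 16 * m then A.a (v ⟨i.toNat, by omega⟩)
    else if h : 17 * m ≤ i ∧ i < 33 * m then A.b (v ⟨(i - 17 * m).toNat, by omega⟩) else A.z)
  split_ifs with h1 h2
  · trivial
  · trivial
  · trivial

lemma cwd_zc {m : ℕ} (u : Fin m → Fin R) (i : ℤ) : A.zc ((cwd m u).f i) := by
  change A.zc (if h : 0 ≤ i ∧ i < m then A.c (u ⟨i.toNat, by omega⟩) else A.z)
  split_ifs
  · trivial
  · trivial

/-- classification of windows -/
lemma x_win {k T : ℕ} (hT : T ≤ gp (Wd R) k) (x : XS R) :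
    (∃ j ∈ Finset.Icc (-(T : ℤ)) (ln R k : ℤ), ∀ t : Fin T, x.1 t = (bl (Wd R) k).f (j + t)) ∨
    ∃ l, k ≤ l ∧ ((∃ v : Fin (16 * m R l) → V, ∃ j : ℤ, ∀ t : Fin T,
      x.1 t = (wd (R := R) (m R l) v).f (j + t)) ∨
      ∃ u : Fin (m R l) → Fin R, ∃ j : ℤ, ∀ t : Fin T, x.1 t = (cwd (m R l) u).f (j + t)) := by
  obtain ⟨i, -, hi⟩ := x.2 T 0
  have hw : ∀ t : Fin T, x.1 t = y R (i + t) := fun t => hi t (by omega) (by omega)
  rcases yy_win (Wd R) hT i with ⟨j, hj⟩ | ⟨l, hl, Q, hQ, j, hj⟩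
  · left
    by_cases hj' : -(T : ℤ) ≤ j ∧ j ≤ ln R k
    · exact ⟨j, Finset.mem_Icc.2 hj', fun t => (hw t).trans (hj t t.2)⟩
    · refine ⟨ln R k, Finset.mem_Icc.2 ⟨by omega, le_rfl⟩, fun t => ?_⟩
      rw [hw t, (bl (Wd R) k).pos (ln R k + t) (by unfold ln; omega)]
      refine (hj t t.2).trans ?_
      by_cases h : j < -(T : ℤ)
      · exact (bl (Wd R) k).neg _ (by omega)
      · have h2 : (ln R k : ℤ) < j := by
          by_contra h3
          exact hj' ⟨by omega, by omega⟩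
        exact (bl (Wd R) k).pos _ (by unfold ln at h2; omega)
  · right
    refine ⟨l, hl, ?_⟩
    rcases mem_Wd hQ with ⟨v, rfl⟩ | ⟨u, rfl⟩
    · exact Or.inl ⟨v, j, fun t => (hw t).trans (hj t t.2)⟩
    · exact Or.inr ⟨u, j, fun t => (hw t).trans (hj t t.2)⟩

lemma m_mono {k l : ℕ} (h : k ≤ l) : m R k ≤ m R l := (mm_strictMono (Wd R)).monotone h

/-- upper bound at the times `m k` -/
lemma ub1 (k : ℕ) (S : Finset (XS R)) (hS : SepW (m R k) S)
    (h : ∀ x ∈ S, (∃ t : Fin (m R k), ¬ A.zc (x.1 t)) ∨ R = 0) :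
    S.card ≤ 2 * m R k + 2 * 4951 ^ (m R k) := by
  classical
  set T := m R k with hTdef
  have hT : T ≤ gp (Wd R) k := mm_le_gp (Wd R) k
  let P1 : XS R → Prop := fun x => ∃ j ∈ Finset.Icc (-(T : ℤ)) (ln R k : ℤ),
    ∀ t : Fin T, x.1 t = (bl (Wd R) k).f (j + t)
  let P2 : XS R → Prop := fun x => ∀ t : Fin T, A.za (x.1 t)
  let P3 : XS R → Prop := fun x => ∀ t : Fin T, A.zb (x.1 t)
  have hcover : ∀ x ∈ S, P1 x ∨ P2 x ∨ P3 x := by
    intro x hx
    rcases x_win hT x with h1 | ⟨l, hl, ⟨v, j, hv⟩ | ⟨u, j, hu⟩⟩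
    · exact Or.inl h1
    · right
      have hml : T ≤ m R l := m_mono hl
      by_cases hj : j + T ≤ 17 * m R l
      · left
        intro t
        have := t.2
        show A.za (x.1 t)
        rw [hv t]
        exact wd_za v (by omega)
      · right
        intro t
        show A.zb (x.1 t)
        rw [hv t]
        exact wd_zb v (by omega)
    · exfalso
      rcases h x hx with ⟨t, ht⟩ | h0
      · apply ht
        rw [hu t]
        exact cwd_zc u _
      · subst h0
        exact (u ⟨0, m_pos l⟩).elim0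
  have h1 : (S.filter P1).card ≤ ln R k + T + 1 :=
    card_class1 (g := (bl (Wd R) k).f) (hS.mono (Finset.filter_subset _ _))
      (fun x hx => (Finset.mem_filter.1 hx).2)
  have h2 : (S.filter P2).card ≤ 4951 ^ T :=
    card_class2 (P := A.za) (fun S' a b => A.bound_a S' a b)
      (hS.mono (Finset.filter_subset _ _)) (fun x hx => (Finset.mem_filter.1 hx).2)
  have h3 : (S.filter P3).card ≤ 4951 ^ T :=
    card_class2 (P := A.zb) (fun S' a b => A.bound_b S' a b)
      (hS.mono (Finset.filter_subset _ _)) (fun x hx => (Finset.mem_filter.1 hx).2)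
  have h4 : S ⊆ S.filter P1 ∪ (S.filter P2 ∪ S.filter P3) := by
    intro x hx
    simp only [Finset.mem_union, Finset.mem_filter]
    rcases hcover x hx with h | h | h
    · exact Or.inl ⟨hx, h⟩
    · exact Or.inr (Or.inl ⟨hx, h⟩)
    · exact Or.inr (Or.inr ⟨hx, h⟩)
  have h5 := Finset.card_le_card h4
  have h6 := Finset.card_union_le (S.filter P1) (S.filter P2 ∪ S.filter P3)
  have h7 := Finset.card_union_le (S.filter P2) (S.filter P3)
  have h8 := ln_eq (R := R) k
  omega

/-- upper bound at all times -/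
lemma ub2 [NeZero R] {k T : ℕ} (hT : T ≤ gp (Wd R) k) (S : Finset (XS R)) (hS : SepW T S) :
    S.card ≤ (ln R k + T + 1) + (1 + 2 * Nat.card V) ^ T + R ^ T := by
  classical
  let P1 : XS R → Prop := fun x => ∃ j ∈ Finset.Icc (-(T : ℤ)) (ln R k : ℤ),
    ∀ t : Fin T, x.1 t = (bl (Wd R) k).f (j + t)
  let P2 : XS R → Prop := fun x => ∀ t : Fin T, A.nc (x.1 t)
  let P3 : XS R → Prop := fun x => ∀ t : Fin T, A.zc (x.1 t)
  have hcover : ∀ x ∈ S, P1 x ∨ P2 x ∨ P3 x := by
    intro x hx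
    rcases x_win hT x with h1 | ⟨l, hl, ⟨v, j, hv⟩ | ⟨u, j, hu⟩⟩
    · exact Or.inl h1
    · right; left
      intro t
      show A.nc (x.1 t)
      rw [hv t]
      exact wd_nc v _
    · right; right
      intro t
      show A.zc (x.1 t)
      rw [hu t]
      exact cwd_zc u _
  have h1 : (S.filter P1).card ≤ ln R k + T + 1 :=
    card_class1 (g := (bl (Wd R) k).f) (hS.mono (Finset.filter_subset _ _))
      (fun x hx => (Finset.mem_filter.1 hx).2)
  have h2 : (S.filter P2).card ≤ (1 + 2 * Nat.card V) ^ T :=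
    card_class2 (P := A.nc) (fun S' a _ => A.bound_nc S' a)
      (hS.mono (Finset.filter_subset _ _)) (fun x hx => (Finset.mem_filter.1 hx).2)
  have h3 : (S.filter P3).card ≤ R ^ T :=
    card_class2 (P := A.zc) (fun S' a b => A.bound_c S' a b)
      (hS.mono (Finset.filter_subset _ _)) (fun x hx => (Finset.mem_filter.1 hx).2)
  have h4 : S ⊆ S.filter P1 ∪ (S.filter P2 ∪ S.filter P3) := by
    intro x hx
    simp only [Finset.mem_union, Finset.mem_filter]
    rcases hcover x hx with h | h | h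
    · exact Or.inl ⟨hx, h⟩
    · exact Or.inr (Or.inl ⟨hx, h⟩)
    · exact Or.inr (Or.inr ⟨hx, h⟩)
  have h5 := Finset.card_le_card h4
  have h6 := Finset.card_union_le (S.filter P1) (S.filter P2 ∪ S.filter P3)
  have h7 := Finset.card_union_le (S.filter P2) (S.filter P3)
  omega

/-- points with a prescribed word at the origin -/
lemma exists_pt {k : ℕ} {Q : Blk (A R) A.z} (hQ : Q ∈ Wd R (m R k)) :
    ∃ x : XS R, ∀ t : ℕ, t < Q.len → x.1 t = Q.f t := by
  obtain ⟨s, hs⟩ := yy_mem (Wd R) (k := k) hQ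
  refine ⟨⟨fun j => y R (j + s), XS_shift_nat y_mem s⟩, fun t ht => ?_⟩
  exact hs t (by omega) (by exact_mod_cast ht)

lemma z_mem : (fun _ => A.z : ℤ → A R) ∈ XS R := by
  intro n N
  have h1 := le_len (Wd R) (n + N + 1)
  have h2 := gp_eq (Wd R) (n + N + 1)
  refine ⟨(bl (Wd R) (n + N + 1)).len + n, by omega, fun j hj1 hj2 => ?_⟩
  exact (yy_zero (Wd R) (n + N + 1) (by push_cast; omega) (by push_cast; omega)).symm

/-- rigidity of the words -/
lemma rigid {k : ℕ} (v : Fin (16 * m R k) → V) (s : XS R)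
    (h : ∀ t : ℕ, t < 33 * m R k → ¬ A.Sp (s.1 t) ((wd (R := R) (m R k) v).f t)) :
    ∀ t : ℕ, t < 33 * m R k → s.1 t = (wd (R := R) (m R k) v).f t := by
  have hM1 : 1 ≤ m R k := m_pos k
  obtain ⟨i, -, hi⟩ := s.2 (33 * m R k) 0
  have hsy : ∀ t : ℕ, t < 33 * m R k → s.1 t = y R (i + t) :=
    fun t ht => hi t (by omega) (by push_cast; omega)
  -- types of the letters of `s`
  have ha : ∀ t : ℕ, t < 16 * m R k → isA (s.1 t) := by
    intro t ht
    have h1 := h t (by omega)
    rw [wd_a v ht] at h1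
    cases hs : s.1 t with
    | z => rw [hs] at h1; exact (h1 trivial).elim
    | a w => trivial
    | b w => rw [hs] at h1; exact (h1 trivial).elim
    | c w => rw [hs] at h1; exact (h1 trivial).elim
  have hz : ∀ t : ℕ, 16 * m R k ≤ t → t < 17 * m R k → A.zc (s.1 t) := by
    intro t ht1 ht2
    have h1 := h t (by omega)
    rw [wd_z v ht1 ht2] at h1
    cases hs : s.1 t with
    | z => trivial
    | a w => rw [hs] at h1; exact (h1 trivial).elim
    | b w => rw [hs] at h1; exact (h1 trivial).elim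
    | c w => trivial
  have hb : ∀ t : ℕ, t < 16 * m R k → ¬ A.zc (s.1 (17 * m R k + t : ℕ)) := by
    intro t ht
    have h1 := h (17 * m R k + t) (by omega)
    rw [wd_b v ht] at h1
    cases hs : s.1 (17 * m R k + t : ℕ) with
    | z => rw [hs] at h1; exact (h1 trivial).elim
    | a w => exact fun e => e.elim
    | b w => exact fun e => e.elim
    | c w => rw [hs] at h1; exact (h1 trivial).elim
  -- the end of the `a`-run
  have h1 : isA (y R ((i : ℤ) + (16 * m R k - 1 : ℕ))) := by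
    rw [← hsy _ (by omega)]; exact ha _ (by omega)
  have h2 : ¬ isA (y R ((i : ℤ) + (16 * m R k - 1 : ℕ) + 1)) := by
    have e : (i : ℤ) + (16 * m R k - 1 : ℕ) + 1 = i + (16 * m R k : ℕ) := by omega
    rw [e, ← hsy _ (by omega)]
    have := hz (16 * m R k) le_rfl (by omega)
    intro hA
    cases hs : s.1 (16 * m R k : ℕ) with
    | z => rw [hs] at hA; exact hA
    | a w => rw [hs] at this; exact this
    | b w => rw [hs] at hA; exact hA
    | c w => rw [hs] at hA; exact hA
  obtain ⟨k', u, hu⟩ := good_y _ h1 h2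
  have hM1' : 1 ≤ m R k' := m_pos k'
  have hu' : ∀ j : ℕ, j < 17 * m R k' → y R ((i : ℤ) + (16 * m R k : ℕ) + j)
      = (wd (R := R) (m R k') u).f ((16 * m R k' + j : ℕ) : ℤ) := by
    intro j hj
    rw [← hu (16 * m R k' + j) (by omega)]
    congr 1
    omega
  have hMM : m R k = m R k' := by
    rcases lt_trichotomy (m R k) (m R k') with hlt | heq | hgt
    · exfalso
      have e := hu' (m R k) (by omega)
      rw [wd_z u (by omega) (by omega)] at e
      have e2 := hb 0 (by omega)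
      rw [hsy _ (by omega)] at e2
      apply e2
      have e3 : (i : ℤ) + ((17 * m R k + 0 : ℕ) : ℤ) = (i : ℤ) + (16 * m R k : ℕ) + ((m R k : ℕ) : ℤ) := by omega
      rw [e3, e]
      trivial
    · exact heq
    · exfalso
      have e := hu' (m R k') (by omega)
      have e4 : 16 * m R k' + m R k' = 17 * m R k' + 0 := by ring
      rw [e4, wd_b u (by omega)] at e
      have e2 := hz (16 * m R k + m R k') (by omega) (by omega)
      rw [hsy _ (by omega)] at e2
      have e3 : (i : ℤ) + ((16 * m R k + m R k' : ℕ) : ℤ) = (i : ℤ) + (16 * m R k : ℕ) + ((m R k' : ℕ) : ℤ) := by omega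
      rw [e3, e] at e2
      exact e2
  have hk : k = k' := (mm_strictMono (Wd R)).injective hMM
  subst hk
  have hsu : ∀ t : ℕ, t < 33 * m R k → s.1 t = (wd (R := R) (m R k) u).f t := by
    intro t ht
    rw [hsy t ht, ← hu t ht]
    congr 1
    omega
  have huv : u = v := by
    funext p
    obtain ⟨p, hp⟩ := p
    have e1 := h p (by omega)
    have e2 := h (17 * m R k + p) (by omega)
    rw [hsu p (by omega), wd_a u hp, wd_a v hp] at e1
    rw [hsu _ (by omega), wd_b u hp, wd_b v hp] at e2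
    exact A.eq_of_not_sp e1 e2
  rw [← huv]
  exact hsu

/-- lower bound for spanning sets -/
lemma lb1 (k : ℕ) (S : Finset (XS R))
    (hS : ∀ x : XS R, ∃ s ∈ S, ∀ t : ℕ, t < 33 * m R k → ¬ A.Sp (s.1 t) (x.1 t)) :
    (Nat.card V) ^ (16 * m R k) ≤ S.card := by
  classical
  have h1 : ∀ v : Fin (16 * m R k) → V, ∃ s ∈ S,
      ∀ t : ℕ, t < 33 * m R k → s.1 t = (wd (R := R) (m R k) v).f t := by
    intro v
    obtain ⟨x, hx⟩ := exists_pt (R := R) (k := k) (wd_mem v)
    obtain ⟨s, hs, h⟩ := hS x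
    refine ⟨s, hs, rigid v s fun t ht => ?_⟩
    have := h t ht
    rwa [hx t ht] at this
  choose F hF1 hF2 using h1
  have hinj : Function.Injective F := by
    intro v w hvw
    funext p
    obtain ⟨p, hp⟩ := p
    have e1 := hF2 v p (by omega)
    have e2 := hF2 w p (by omega)
    rw [hvw, e2, wd_a v hp, wd_a w hp] at e1
    injection e1 with e1
    exact e1.symm
  have h2 : Nat.card (Fin (16 * m R k) → V) ≤ Nat.card S := by
    apply Nat.card_le_card_of_injective (fun v => (⟨F v, hF1 v⟩ : S))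
    intro v w hvw
    exact hinj (congrArg Subtype.val hvw)
  rw [Nat.card_fun, Nat.card_fin] at h2
  simpa using h2

lemma exists_m_ge (T : ℕ) : ∃ k, T ≤ m R k := ⟨T, by
  have := le_len (Wd R) T
  unfold m mm; omega⟩

/-- lower bound for separated sets -/
lemma lb2 (T : ℕ) : ∃ S : Finset (XS R), SepW T S ∧ S.card = R ^ T := by
  classical
  obtain ⟨k, hk⟩ := exists_m_ge (R := R) T
  rcases Nat.eq_zero_or_pos T with hT0 | hTpos
  · subst hT0
    refine ⟨{⟨_, z_mem⟩}, ?_, by simp⟩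
    intro x hx x' hx' hne
    simp only [Finset.mem_singleton] at hx hx'
    exact (hne (hx.trans hx'.symm)).elim
  rcases Nat.eq_zero_or_pos R with hR | hR
  · subst hR
    refine ⟨∅, fun x hx => by simp at hx, ?_⟩
    rw [zero_pow (by omega)]
    rfl
  have h1 : ∀ u : Fin T → Fin R, ∃ x : XS R, ∀ t : Fin T, x.1 t = A.c (u t) := by
    intro u
    let u' : Fin (m R k) → Fin R := fun t => if h : t.1 < T then u ⟨t.1, h⟩ else ⟨0, hR⟩
    obtain ⟨x, hx⟩ := exists_pt (R := R) (k := k) (cwd_mem u')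
    refine ⟨x, fun t => ?_⟩
    rw [hx t (show (t : ℕ) < m R k by omega), cwd_c u' (show (t : ℕ) < m R k by omega)]
    simp [u', t.2]
  choose F hF using h1
  have hinj : Function.Injective F := by
    intro u w huw
    funext t
    have e1 := hF u t
    rw [huw, hF w t] at e1
    injection e1 with e1
    exact e1.symm
  refine ⟨Finset.univ.image F, ?_, ?_⟩
  · intro x hx x' hx' hne
    obtain ⟨u, -, rfl⟩ := Finset.mem_image.1 hx
    obtain ⟨w, -, rfl⟩ := Finset.mem_image.1 hx'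
    have huw : u ≠ w := fun e => hne (by rw [e])
    obtain ⟨t, ht⟩ := Function.ne_iff.1 huw
    refine ⟨t, ?_⟩
    rw [hF u t, hF w t]
    exact ht
  · rw [Finset.card_image_of_injective _ hinj]
    simp

end Pool.Agent.X194.SepSpan
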