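import Pool.Agent.X194.SepSpan.Alpha
import Pool.Agent.X194.SepSpan.Blocks

/-!
# The subshift
-/

namespace Pool.Agent.X194.SepSpan

open Blk

variable {R : ℕ}

/-! ### words -/

/-- the word displaying `v` in both modes -/
def wd (m : ℕ) (v : Fin (16 * m) → V) : Blk (A R) A.z where
  len := 33 * m
  f i := if h : 0 ≤ i ∧ i < 16 * m then A.a (v ⟨i.toNat, by omega⟩)
    else if h : 17 * m ≤ i ∧ i < 33 * m then A.b (v ⟨(i - 17 * m).toNat, by omega⟩) else A.z
  neg i hi := by
    rw [dif_neg (by omega), dif_neg (by omega)]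
  pos i hi := by
    push_cast at hi
    rw [dif_neg (by omega), dif_neg (by omega)]

/-- the `c`-words -/
def cwd (m : ℕ) (u : Fin m → Fin R) : Blk (A R) A.z where
  len := m
  f i := if h : 0 ≤ i ∧ i < m then A.c (u ⟨i.toNat, by omega⟩) else A.z
  neg i hi := by rw [dif_neg (by omega)]
  pos i hi := by rw [dif_neg (by omega)]

lemma wd_a {m : ℕ} (v : Fin (16 * m) → V) {t : ℕ} (ht : t < 16 * m) :
    (wd (R := R) m v).f t = A.a (v ⟨t, ht⟩) := by
  show (if h : 0 ≤ (t : ℤ) ∧ (t : ℤ) < 16 * m then A.a (v ⟨(t : ℤ).toNat, by omega⟩) else _) = _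
  rw [dif_pos (by omega)]
  simp

lemma wd_z {m : ℕ} (v : Fin (16 * m) → V) {t : ℕ} (h1 : 16 * m ≤ t) (h2 : t < 17 * m) :
    (wd (R := R) m v).f t = A.z := by
  show (if h : 0 ≤ (t : ℤ) ∧ (t : ℤ) < 16 * m then A.a (v ⟨(t : ℤ).toNat, by omega⟩)
    else if h : 17 * (m : ℤ) ≤ (t : ℤ) ∧ (t : ℤ) < 33 * m then
      A.b (v ⟨((t : ℤ) - 17 * m).toNat, by omega⟩) else A.z) = _
  rw [dif_neg (by omega), dif_neg (by omega)]

lemma wd_b {m : ℕ} (v : Fin (16 * m) → V) {t : ℕ} (ht : t < 16 * m) :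
    (wd (R := R) m v).f ((17 * m + t : ℕ) : ℤ) = A.b (v ⟨t, ht⟩) := by
  show (if h : 0 ≤ ((17 * m + t : ℕ) : ℤ) ∧ ((17 * m + t : ℕ) : ℤ) < 16 * m then
      A.a (v ⟨((17 * m + t : ℕ) : ℤ).toNat, by omega⟩)
    else if h : 17 * (m : ℤ) ≤ ((17 * m + t : ℕ) : ℤ) ∧ ((17 * m + t : ℕ) : ℤ) < 33 * m then
      A.b (v ⟨(((17 * m + t : ℕ) : ℤ) - 17 * m).toNat, by omega⟩) else A.z) = _
  rw [dif_neg (by omega), dif_pos (by omega)]
  congr 3
  push_cast
  omega

lemma cwd_c {m : ℕ} (u : Fin m → Fin R) {t : ℕ} (ht : t < m) :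
    (cwd m u).f t = A.c (u ⟨t, ht⟩) := by
  show (if h : 0 ≤ (t : ℤ) ∧ (t : ℤ) < m then A.c (u ⟨(t : ℤ).toNat, by omega⟩) else _) = _
  rw [dif_pos (by omega)]
  simp

/-- the words of size `m` -/
noncomputable def Wd (R : ℕ) (m : ℕ) : List (Blk (A R) A.z) :=
  ((Set.toFinite (Set.univ : Set (Fin (16 * m) → V))).toFinset.toList).map (wd m) ++
  ((Set.toFinite (Set.univ : Set (Fin m → Fin R))).toFinset.toList).map (cwd m)

lemma mem_Wd {m : ℕ} {Q : Blk (A R) A.z} (h : Q ∈ Wd R m) :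
    (∃ v, Q = wd m v) ∨ ∃ u, Q = cwd m u := by
  unfold Wd at h
  simp only [List.mem_append, List.mem_map] at h
  rcases h with ⟨v, -, rfl⟩ | ⟨u, -, rfl⟩
  · exact Or.inl ⟨v, rfl⟩
  · exact Or.inr ⟨u, rfl⟩

lemma wd_mem {m : ℕ} (v : Fin (16 * m) → V) : (wd m v : Blk (A R) A.z) ∈ Wd R m := by
  unfold Wd
  simp only [List.mem_append, List.mem_map]
  exact Or.inl ⟨v, by simp, rfl⟩

lemma cwd_mem {m : ℕ} (u : Fin m → Fin R) : (cwd m u : Blk (A R) A.z) ∈ Wd R m := by
  unfold Wd
  simp only [List.mem_append, List.mem_map]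
  exact Or.inr ⟨u, by simp, rfl⟩

/-- the sequence -/
noncomputable def y (R : ℕ) : ℤ → A R := yy (Wd R)

/-- sizes -/
noncomputable def m (R k : ℕ) : ℕ := mm (Wd R) k

lemma m_pos (k : ℕ) : 1 ≤ m R k := by unfold m mm; omega

/-- being an `a`-letter -/
def isA : A R → Prop
  | A.a _ => True
  | _ => False

/-- every end of an `a`-run is inside a word -/
def Good (h : ℤ → A R) : Prop := ∀ i, isA (h i) → ¬ isA (h (i + 1)) →
  ∃ k, ∃ v : Fin (16 * m R k) → V, ∀ t : ℕ, t < 33 * m R k →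
    h (i + 1 - 16 * m R k + t) = (wd (R := R) (m R k) v).f t

lemma good_merge {G : ℕ} {P Q : Blk (A R) A.z} (hG : 1 ≤ G) (hP : Good P.f) (hQ : Good Q.f) :
    Good (merge G P Q).f := by
  intro i hi hi1
  have hG' : (1 : ℤ) ≤ G := by exact_mod_cast hG
  rcases lt_or_ge (i + 1) (P.len + G : ℤ) with h | h
  · rw [merge_left (by omega)] at hi
    rw [merge_left h] at hi1
    obtain ⟨k, v, hv⟩ := hP i hi hi1
    refine ⟨k, v, fun t ht => ?_⟩
    have hm := m_pos (R := R) k
    have hlast := hv (17 * m R k + (16 * m R k - 1)) (by omega)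
    rw [wd_b v (by omega)] at hlast
    have hlt : i + 1 - 16 * m R k + ((17 * m R k + (16 * m R k - 1) : ℕ) : ℤ) < P.len := by
      by_contra hcon
      push Not at hcon
      rw [P.pos _ hcon] at hlast
      cases hlast
    rw [merge_left (by omega)]
    exact hv t ht
  · rcases lt_or_ge i (P.len + G : ℤ) with h' | h'
    · rw [merge_left h', P.pos _ (by omega)] at hi
      exact hi.elim
    · have e1 : i = (i - (P.len + G)) + (P.len + G) := by ring
      have e2 : i + 1 = (i - (P.len + G) + 1) + (P.len + G) := by ring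
      rw [e1, merge_right (by omega)] at hi
      rw [e2, merge_right (by omega)] at hi1
      obtain ⟨k, v, hv⟩ := hQ _ hi hi1
      refine ⟨k, v, fun t ht => ?_⟩
      have hm := m_pos (R := R) k
      have hfirst := hv 0 (by omega)
      rw [wd_a v (by omega)] at hfirst
      have hge : 0 ≤ i - (P.len + G) + 1 - 16 * m R k + ((0 : ℕ) : ℤ) := by
        by_contra hcon
        push Not at hcon
        rw [Q.neg _ hcon] at hfirst
        cases hfirst
      have e3 : i + 1 - 16 * m R k + t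
          = (i - (P.len + G) + 1 - 16 * m R k + t) + (P.len + G) := by ring
      rw [e3, merge_right (by push_cast at hge; omega)]
      exact hv t ht

lemma good_wd (k : ℕ) (v : Fin (16 * m R k) → V) : Good (wd (R := R) (m R k) v).f := by
  intro i hi hi1
  have h0 : 0 ≤ i ∧ i < 16 * m R k := by
    by_contra hcon
    have e : (wd (R := R) (m R k) v).f i = if h : 17 * (m R k : ℤ) ≤ i ∧ i < 33 * m R k then
      A.b (v ⟨(i - 17 * m R k).toNat, by omega⟩) else A.z := dif_neg hcon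
    rw [e] at hi
    split_ifs at hi
    · exact hi.elim
    · exact hi.elim
  have h1 : ¬ (i + 1 < 16 * m R k) := by
    intro hlt
    apply hi1
    have e : (wd (R := R) (m R k) v).f (i + 1) = A.a (v ⟨(i + 1).toNat, by omega⟩) :=
      dif_pos ⟨by omega, hlt⟩
    rw [e]
    trivial
  refine ⟨k, v, fun t _ => ?_⟩
  congr 1
  omega

lemma good_cwd (k : ℕ) (u : Fin k → Fin R) : Good (cwd k u).f := by
  intro i hi _
  exfalso
  change isA (if h : 0 ≤ i ∧ i < k then A.c (u ⟨i.toNat, by omega⟩) else A.z) at hi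
  split_ifs at hi
  · exact hi.elim
  · exact hi.elim

lemma good_bl (k : ℕ) : Good (bl (Wd R) k).f := by
  refine bl_ind (Wd R) (fun P => Good P.f) ?_ (fun G P Q hG hP hQ => good_merge hG hP hQ) ?_ k
  · intro i hi _
    exact hi.elim
  · intro k Q hQ
    rcases mem_Wd hQ with ⟨v, rfl⟩ | ⟨u, rfl⟩
    · exact good_wd k v
    · exact good_cwd _ u

lemma good_y : Good (y R) := by
  intro i hi hi1
  set K := (i + 1).toNat + 1 with hK
  have h1 := le_len (Wd R) K
  have h2 : i + 1 ≤ (i + 1).toNat := Int.self_le_toNat _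
  have h3 : (0 : ℤ) ≤ gp (Wd R) K := Int.natCast_nonneg _
  have h4 : i + 1 < (bl (Wd R) K).len := by
    have : ((K : ℕ) : ℤ) ≤ (bl (Wd R) K).len := by exact_mod_cast h1
    rw [hK] at this ⊢
    push_cast at this
    omega
  have e1 : y R i = (bl (Wd R) K).f i := yy_eq _ (by omega)
  have e2 : y R (i + 1) = (bl (Wd R) K).f (i + 1) := yy_eq _ (by omega)
  rw [e1] at hi
  rw [e2] at hi1
  obtain ⟨k, v, hv⟩ := good_bl K i hi hi1
  refine ⟨k, v, fun t ht => ?_⟩
  have hm := m_pos (R := R) k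
  have hlast := hv (17 * m R k + (16 * m R k - 1)) (by omega)
  rw [wd_b v (by omega)] at hlast
  have hlt : i + 1 - 16 * m R k + ((17 * m R k + (16 * m R k - 1) : ℕ) : ℤ)
      < (bl (Wd R) K).len := by
    by_contra hcon
    push Not at hcon
    rw [(bl (Wd R) K).pos _ hcon] at hlast
    cases hlast
  have e3 : y R (i + 1 - 16 * m R k + t) = (bl (Wd R) K).f (i + 1 - 16 * m R k + t) :=
    yy_eq _ (by omega)
  rw [e3]
  exact hv t ht

/-! ### the subshift -/

/-- the underlying set -/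
def XS (R : ℕ) : Set (ℤ → A R) :=
  {x | ∀ n N : ℕ, ∃ i : ℕ, N ≤ i ∧ ∀ j : ℤ, -(n : ℤ) ≤ j → j ≤ n → x j = y R (i + j)}

lemma y_mem : y R ∈ XS R := by
  intro n N
  obtain ⟨s, hs, h⟩ := yy_rec (Wd R) n N
  exact ⟨s, hs, fun j h1 h2 => (h j h1 h2).symm⟩

lemma XS_shift {x : ℤ → A R} (hx : x ∈ XS R) : (fun j => x (j + 1)) ∈ XS R := by
  intro n N
  obtain ⟨i, hi, h⟩ := hx (n + 1) N
  refine ⟨i + 1, by omega, fun j h1 h2 => ?_⟩
  have := h (j + 1) (by push_cast; omega) (by push_cast; omega)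
  show x (j + 1) = _
  rw [this]
  congr 1
  push_cast
  ring

lemma XS_unshift {x : ℤ → A R} (hx : x ∈ XS R) : (fun j => x (j - 1)) ∈ XS R := by
  intro n N
  obtain ⟨i, hi, h⟩ := hx (n + 1) (N + 1)
  refine ⟨i - 1, by omega, fun j h1 h2 => ?_⟩
  have := h (j - 1) (by push_cast; omega) (by push_cast; omega)
  show x (j - 1) = _
  rw [this]
  congr 1
  push_cast [Nat.cast_sub (show 1 ≤ i by omega)]
  ring

lemma XS_shift_nat {x : ℤ → A R} (hx : x ∈ XS R) (s : ℕ) : (fun j => x (j + s)) ∈ XS R := by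
  induction s with
  | zero => simpa using hx
  | succ s ih =>
    have := XS_shift ih
    convert this using 2
    push_cast
    ring_nf

lemma cyl_open (x : ℤ → A R) (n : ℕ) :
    IsOpen {x' : ℤ → A R | ∀ j : ℤ, -(n : ℤ) ≤ j → j ≤ n → x' j = x j} := by
  have : {x' : ℤ → A R | ∀ j : ℤ, -(n : ℤ) ≤ j → j ≤ n → x' j = x j}
      = ⋂ j ∈ (Finset.Icc (-(n : ℤ)) n : Finset ℤ), {x' : ℤ → A R | x' j = x j} := by
    ext x'
    simp only [Set.mem_ofPred_eq, Set.mem_iInter, Finset.mem_Icc]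
    exact ⟨fun h j hj => h j hj.1 hj.2, fun h j h1 h2 => h j ⟨h1, h2⟩⟩
  rw [this]
  apply isOpen_biInter_finset
  intro j _
  have h : IsOpen ((fun x' : ℤ → A R => x' j) ⁻¹' {x j}) :=
    (isOpen_discrete _).preimage (continuous_apply j)
  exact h

lemma XS_closed : IsClosed (XS R) := by
  apply isClosed_of_closure_subset
  intro x hx n N
  rw [mem_closure_iff] at hx
  obtain ⟨x', hx1, hx2⟩ := hx _ (cyl_open x n) (fun j _ _ => rfl)
  obtain ⟨i, hi, h⟩ := hx2 n N
  exact ⟨i, hi, fun j h1 h2 => (hx1 j h1 h2).symm.trans (h j h1 h2)⟩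

instance : CompactSpace (XS R) := isCompact_iff_compactSpace.1 XS_closed.isCompact

/-- the shift homeomorphism -/
def sh (R : ℕ) : XS R ≃ₜ XS R where
  toFun x := ⟨fun j => x.1 (j + 1), XS_shift x.2⟩
  invFun x := ⟨fun j => x.1 (j - 1), XS_unshift x.2⟩
  left_inv x := by
    apply Subtype.ext
    funext j
    exact congrArg x.1 (show j - 1 + 1 = j by ring)
  right_inv x := by
    apply Subtype.ext
    funext j
    exact congrArg x.1 (show j + 1 - 1 = j by ring)
  continuous_toFun := by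
    apply Continuous.subtype_mk
    exact continuous_pi fun j => (continuous_apply (j + 1)).comp continuous_subtype_val
  continuous_invFun := by
    apply Continuous.subtype_mk
    exact continuous_pi fun j => (continuous_apply (j - 1)).comp continuous_subtype_val

lemma sh_iter (t : ℕ) (x : XS R) (j : ℤ) : ((sh R)^[t] x).1 j = x.1 (j + t) := by
  induction t generalizing x with
  | zero => simp
  | succ t ih =>
    rw [Function.iterate_succ_apply, ih]
    exact congrArg x.1 (show j + t + 1 = j + (t + 1 : ℕ) by push_cast; ring)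

/-! ### the metric -/

/-- enumeration of the integers -/
def en : ℕ ≃ ℤ := Equiv.intEquivNat.symm

/-- the embedding -/
def emb (x : XS R) : A R × (ℕ → A R) := (x.1 0, fun n => x.1 (en n))

lemma emb_inj : Function.Injective (emb (R := R)) := by
  intro x x' h
  apply Subtype.ext
  funext j
  have := congrFun (congrArg Prod.snd h) (en.symm j)
  simpa [emb] using this

lemma emb_cont : Continuous (emb (R := R)) := by
  apply Continuous.prodMk
  · exact (continuous_apply 0).comp continuous_subtype_val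
  · exact continuous_pi fun n => (continuous_apply (en n)).comp continuous_subtype_val

/-- metric on sequences -/
@[reducible] noncomputable def mPi (R : ℕ) : MetricSpace (ℕ → A R) :=
  PiNat.metricSpace (E := fun _ => A R)

/-- metric on the product -/
@[reducible] noncomputable def mProd (R : ℕ) : MetricSpace (A R × (ℕ → A R)) :=
  letI := mPi R
  inferInstance

lemma emb_ind : (instTopologicalSpaceSubtype : TopologicalSpace (XS R)) =
    TopologicalSpace.induced emb (mProd R).toPseudoMetricSpace.toUniformSpace.toTopologicalSpace :=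
  (emb_cont.isClosedEmbedding emb_inj).isInducing.eq_induced

noncomputable instance instMetric : MetricSpace (XS R) :=
  letI := mProd R
  (MetricSpace.induced emb emb_inj (mProd R)).replaceTopology emb_ind

/-- the second part of the distance -/
noncomputable def rho (x x' : XS R) : ℝ :=
  letI := mPi R
  dist (fun n => x.1 (en n)) (fun n => x'.1 (en n))

lemma dist_eq (x x' : XS R) : dist x x' = max (A.d (x.1 0) (x'.1 0)) (rho x x') := rfl

lemma rho_le (x x' : XS R) : rho x x' ≤ 1 := PiNat.dist_le_one _ _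

lemma rho_lt {δ : ℝ} (hδ : 0 < δ) : ∃ n : ℕ, ∀ x x' : XS R,
    (∀ j : ℤ, -(n : ℤ) ≤ j → j ≤ n → x.1 j = x'.1 j) → rho x x' < δ := by
  obtain ⟨k, hk⟩ := exists_pow_lt_of_lt_one hδ (show (1 / 2 : ℝ) < 1 by norm_num)
  obtain ⟨n, hn⟩ : ∃ n : ℕ, ∀ i < k, (en i).natAbs ≤ n := by
    refine ⟨(Finset.range k).sup fun i => (en i).natAbs, fun i hi => ?_⟩
    exact Finset.le_sup (f := fun i => (en i).natAbs) (Finset.mem_range.2 hi)
  refine ⟨n, fun x x' h => ?_⟩
  refine lt_of_le_of_lt ?_ hk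
  apply PiNat.mem_cylinder_iff_dist_le.1
  rw [PiNat.mem_cylinder_iff]
  intro i hi
  have := hn i hi
  exact h (en i) (by omega) (by omega)

lemma dist_sp {x x' : XS R} (h : A.Sp (x.1 0) (x'.1 0)) : 8 ≤ dist x x' := by
  rw [dist_eq, A.d_sp h]
  exact le_max_left _ _

lemma dist_not_sp {x x' : XS R} (h : ¬ A.Sp (x.1 0) (x'.1 0)) : dist x x' ≤ 4 := by
  rw [dist_eq]
  exact max_le (A.d_not_sp h) ((rho_le _ _).trans (by norm_num))

lemma dist_le8 (x x' : XS R) : dist x x' ≤ 8 := by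
  rw [dist_eq]
  exact max_le (A.d_le _ _) ((rho_le _ _).trans (by norm_num))

lemma dist_ne {x x' : XS R} (h : x.1 0 ≠ x'.1 0) : 4 ≤ dist x x' := by
  rw [dist_eq]
  exact (A.d_ge h).trans (le_max_left _ _)

lemma dist_lt {δ : ℝ} (hδ : 0 < δ) : ∃ n : ℕ, ∀ x x' : XS R,
    (∀ j : ℤ, -(n : ℤ) ≤ j → j ≤ n → x.1 j = x'.1 j) → dist x x' < δ := by
  obtain ⟨n, hn⟩ := rho_lt (R := R) hδ
  refine ⟨n, fun x x' h => ?_⟩
  rw [dist_eq, h 0 (by omega) (by omega), A.d_self]
  exact max_lt hδ (hn x x' h)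

end Pool.Agent.X194.SepSpan
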